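import Mathlib
import Pool.Agent.Helper22.TB.Goals

/-!
Project TB, packet ABM: sum over the multiples of an odd number.
-/

set_option autoImplicit false

namespace Pool.Agent.Helper86.TB

open Pool.Agent.Helper22.TB

/-- Packet ABM. -/
theorem gABM : G_ABM := by
  intro f r m _ _ _ hm
  have hm1 : 0 < m := hm.pos
  unfold Pool.Agent.Helper22.TB.Ab
  have h0 : (if m ∣ 0 then f 0 else 0) = f (m * 0) := by
    rw [if_pos (dvd_zero m), mul_zero]
  show (if m ∣ 0 then f 0 else 0) + _ = _
  rw [h0]
  congr 2
  have hinj : Function.Injective (fun k : ℕ => m * (k + 1) - 1) := by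
    intro a b hab
    have ha : 0 < m * (a + 1) := Nat.mul_pos hm1 (Nat.succ_pos _)
    have hb : 0 < m * (b + 1) := Nat.mul_pos hm1 (Nat.succ_pos _)
    have h1 : m * (a + 1) = m * (b + 1) := by
      have : m * (a + 1) - 1 = m * (b + 1) - 1 := hab
      omega
    have := Nat.eq_of_mul_eq_mul_left hm1 h1
    omega
  rw [← hinj.tsum_eq]
  · refine tsum_congr (fun k => ?_)
    have h1 : m * (k + 1) - 1 + 1 = m * (k + 1) :=
      Nat.sub_add_cancel (Nat.mul_pos hm1 (Nat.succ_pos _))
    simp only [h1]
    rw [if_pos (dvd_mul_right m _), pow_mul, pow_mul, hm.neg_one_pow]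
  · intro g hg
    have h1 : m ∣ g + 1 := by
      by_contra h
      apply hg
      simp only [if_neg h, mul_zero, zero_mul]
    obtain ⟨c, hc⟩ := h1
    cases c with
    | zero => omega
    | succ c =>
      refine ⟨c, ?_⟩
      show m * (c + 1) - 1 = g
      omega

end Pool.Agent.Helper86.TB
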